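import Pool.Agent.helper88.EF.Defs

/-! # Project EF: module DL (iterated differences and generators) -/

set_option autoImplicit false

namespace Pool.Agent.helper88.EF

open Finset Pool.Agent.helper76.LP

section
variable {G : Type*} [CommGroup G]

theorem DL_mdv_lin (Γ : ℕ → Subgroup G) (L : List ℕ) (f g : G → ℤ) (a b : G)
    (c d : ℤ) (hf : MDv Γ L f) (hg : MDv Γ L g) :
    MDv Γ L (fun x => c * f (a * x) + d * g (b * x)) := by
  induction L generalizing f g with
  | nil =>
    intro x
    change c * f (a * x) + d * g (b * x) = 0
    rw [hf, hg]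
    ring
  | cons p L ih =>
    intro u hu
    have h := ih (fun x => f (u * x) - f x) (fun x => g (u * x) - g x) (hf u hu) (hg u hu)
    have e : (fun x => c * f (a * (u * x)) + d * g (b * (u * x)) - (c * f (a * x) + d * g (b * x))) =
        (fun x => c * (f (u * (a * x)) - f (a * x)) + d * (g (u * (b * x)) - g (b * x))) := by
      funext x
      rw [mul_left_comm a u x, mul_left_comm b u x]
      ring
    change MDv Γ L (fun x => c * f (a * (u * x)) + d * g (b * (u * x)) -
      (c * f (a * x) + d * g (b * x)))
    rw [e]
    exact h

theorem DL_dl_lin (v : ℕ → G) (L : List ℕ) (f g : G → ℤ) (a : G) (x : G) :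
    dl v L (fun y => f (a * y) - g y) x = dl v L f (a * x) - dl v L g x := by
  induction L generalizing f g with
  | nil => rfl
  | cons p L ih =>
    change dl v L (fun y => (f (a * (v p * y)) - g (v p * y)) - (f (a * y) - g y)) x =
      dl v L (fun y => f (v p * y) - f y) (a * x) - dl v L (fun y => g (v p * y) - g y) x
    rw [← ih]
    congr 1
    funext y
    rw [mul_left_comm a (v p) y]
    ring

theorem DL_congr (v w : ℕ → G) (L : List ℕ) (h : ∀ p ∈ L, v p = w p) (f : G → ℤ) (x : G) :
    dl v L f x = dl w L f x := by
  induction L generalizing f with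
  | nil => rfl
  | cons p L ih =>
    change dl v L (fun y => f (v p * y) - f y) x = dl w L (fun y => f (w p * y) - f y) x
    rw [h p List.mem_cons_self]
    exact ih (fun q hq => h q (List.mem_cons_of_mem p hq)) _

end

theorem mdv_of_dl {G : Type*} [CommGroup G] (Γ : ℕ → Subgroup G) (L : List ℕ) (hnd : L.Nodup)
    (V : ℕ → Set G) (hV : ∀ p ∈ L, Γ p ≤ Subgroup.closure (V p)) (f : G → ℤ)
    (h : ∀ v : ℕ → G, (∀ p ∈ L, v p ∈ V p) → ∀ x, dl v L f x = 0) : MDv Γ L f := by
  induction L generalizing f with
  | nil => exact fun x => h (fun _ => 1) (by simp) x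
  | cons p L ih =>
    intro u hu
    have hp : p ∉ L := (List.nodup_cons.mp hnd).1
    have hu' := hV p List.mem_cons_self hu
    have hbase : ∀ u ∈ V p, MDv Γ L (fun x => f (u * x) - f x) := by
      intro u hu
      refine ih (List.nodup_cons.mp hnd).2 (fun q hq => hV q (List.mem_cons_of_mem p hq)) _ ?_
      intro v hv x
      have h1 := h (Function.update v p u) (by
        intro q hq
        rcases List.mem_cons.mp hq with hq' | hq'
        · rw [hq', Function.update_self]
          exact hu
        · have hne : q ≠ p := fun e => hp (e ▸ hq')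
          rw [Function.update_of_ne hne]
          exact hv q hq') x
      have h2 : dl (Function.update v p u) (p :: L) f x =
          dl (Function.update v p u) L
            (fun y => f ((Function.update v p u) p * y) - f y) x := rfl
      rw [h2, Function.update_self] at h1
      rw [← h1]
      refine DL_congr _ _ L (fun q hq => ?_) _ x
      have hne : q ≠ p := fun e => hp (e ▸ hq)
      rw [Function.update_of_ne hne]
    refine Subgroup.closure_induction
      (p := fun u _ => MDv Γ L (fun x => f (u * x) - f x)) (fun u hu => hbase u hu) ?_ ?_ ?_ hu'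
    · have h1 : (fun x => f (1 * x) - f x) = fun _ => (0 : ℤ) := by
        funext x
        rw [one_mul, sub_self]
      rw [h1]
      have h0 : ∀ L' : List ℕ, MDv Γ L' (fun _ => (0 : ℤ)) := by
        intro L'
        induction L' with
        | nil => exact fun _ => rfl
        | cons q L' ih' =>
          intro w _
          change MDv Γ L' (fun _ => (0 : ℤ) - 0)
          rw [sub_zero]
          exact ih'
      exact h0 L
    · intro a b _ _ ha hb
      have h1 := DL_mdv_lin Γ L _ _ b 1 1 1 ha hb
      have e : (fun x => f (a * b * x) - f x) =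
          (fun x => 1 * (f (a * (b * x)) - f (b * x)) + 1 * (f (b * (1 * x)) - f (1 * x))) := by
        funext x
        rw [one_mul x, mul_assoc]
        ring
      rw [e]
      exact h1
    · intro a _ ha
      have h1 := DL_mdv_lin Γ L _ _ a⁻¹ 1 (-1) 0 ha ha
      have e : (fun x => f (a⁻¹ * x) - f x) =
          (fun x => (-1) * (f (a * (a⁻¹ * x)) - f (a⁻¹ * x)) +
            0 * (f (a * (1 * x)) - f (1 * x))) := by
        funext x
        rw [mul_inv_cancel_left]
        ring
      rw [e]
      exact h1

theorem dl_of_mdv {G : Type*} [CommGroup G] (Γ : ℕ → Subgroup G) (L : List ℕ) (f : G → ℤ)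
    (hf : MDv Γ L f) (v : ℕ → G) (hv : ∀ p ∈ L, v p ∈ Γ p) (x : G) : dl v L f x = 0 := by
  induction L generalizing f with
  | nil => exact hf x
  | cons p L ih =>
    exact ih _ (hf (v p) (hv p List.mem_cons_self)) (fun q hq => hv q (List.mem_cons_of_mem p hq))

theorem dl_eq_sum {G : Type*} [CommGroup G] (v : ℕ → G) (L : List ℕ) (hnd : L.Nodup)
    (f : G → ℤ) (x : G) :
    dl v L f x = ∑ S ∈ L.toFinset.powerset, (-1) ^ (S.card + L.length) * f ((∏ p ∈ S, v p) * x) := by
  induction L generalizing f with
  | nil => simp [dl]
  | cons p L ih =>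
    have hp : p ∉ L.toFinset := by
      rw [List.mem_toFinset]
      exact (List.nodup_cons.mp hnd).1
    change dl v L (fun y => f (v p * y) - f y) x = _
    rw [ih (List.nodup_cons.mp hnd).2, List.toFinset_cons, Finset.sum_powerset_insert hp,
      ← Finset.sum_add_distrib]
    refine Finset.sum_congr rfl fun S hS => ?_
    have hpS : p ∉ S := fun h => hp (Finset.mem_powerset.mp hS h)
    rw [Finset.card_insert_of_notMem hpS, Finset.prod_insert hpS, List.length_cons, ← mul_assoc]
    ring

/-- one direction separated from the others -/
theorem dl_erase {G : Type*} [CommGroup G] (v : ℕ → G) (L : List ℕ) (p : ℕ) (hp : p ∈ L)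
    (f : G → ℤ) (x : G) :
    dl v L f x = dl v (L.erase p) f (v p * x) - dl v (L.erase p) f x := by
  induction L generalizing f with
  | nil => simp at hp
  | cons q L ih =>
    by_cases h : q = p
    · subst h
      rw [List.erase_cons_head]
      exact DL_dl_lin v L f f (v q) x
    · have hpL : p ∈ L := by
        rcases List.mem_cons.mp hp with h' | h'
        · exact absurd h'.symm h
        · exact h'
      rw [List.erase_cons_tail (by simpa using h)]
      exact ih hpL _

end Pool.Agent.helper88.EF
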