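import Pool.Agent.helper88.EF.Defs
import Pool.Agent.helper23.EF.RS
import Pool.Agent.helper13.EF.DL
import Pool.Agent.helper52.EF.CT

/-! # Project EF, module RE: r10 and r11 -/

set_option autoImplicit false

namespace Pool.Agent.helper88.EF

open Finset Pool.Agent.helper76.LP

/-- no bad pairs: the differences vanish -/
theorem RE_core (D q : ℕ) [NeZero D] (L : List ℕ) (ev : Prop) (f : (ZMod D)ˣ → ℤ)
    (h : RHyp D q L ev f) (hc : 7 ≤ Nat.card (Gam D q)) (v : ℕ → (ZMod D)ˣ)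
    (hv : ∀ p ∈ L, v p ∈ Gam D p)
    (hsq : (-1 : (ZMod D)ˣ) ∉ Pl (Gam D) (q :: L) ∨ ∃ p ∈ L, v p * v p ≠ 1)
    (hno : (∀ p ∈ L, v p ≠ 1) → ∀ (b : Bool) (S S' : Finset ℕ) (ξ : (ZMod D)ˣ), S ⊆ L.toFinset →
      S' ⊆ L.toFinset → ξ ∈ Gam D q →
      (2 : ZMod D) * ((∏ p ∈ S, v p : (ZMod D)ˣ) : ZMod D) =
        ((su b * ξ * ∏ p ∈ S', v p : (ZMod D)ˣ) : ZMod D) →
      sg b * (-1) ^ (S.card + S'.card) = 1) (z : (ZMod D)ˣ) : dl v L f z = 0 := by
  by_cases hv1 : ∀ p ∈ L, v p ≠ 1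
  · obtain ⟨ψ, h1, h2, h3⟩ := cube_test D q L h.nd h.hL v hv hv1 hsq z
    have h4 := bd_one D q L v z ψ h2 ev (fun _ _ => hno hv1)
    have h5 := h.est ψ 1 h1 h4
    have h6 := h3 f h.odd h.mdv
    rw [h6] at h5
    by_contra hne
    have h7 : (1 : ℤ) ≤ |dl v L f z| := Int.one_le_abs hne
    rw [abs_mul, abs_mul] at h5
    have h8 : (7 : ℤ) ≤ (Nat.card (Gam D q) : ℤ) := by exact_mod_cast hc
    have h9 : |(2 : ℤ)| = 2 := by norm_num
    rw [h9, Nat.abs_cast] at h5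
    nlinarith
  · push Not at hv1
    obtain ⟨p, hp, hp1⟩ := hv1
    rw [dl_erase v L p hp f z, hp1, one_mul, sub_self]

theorem RE_prod (D n p0 : ℕ) [NeZero D] (hnD : n ∣ D) (L : List ℕ) (S : Finset ℕ)
    (hS : S ⊆ L.toFinset) (v : ℕ → (ZMod D)ˣ) (hv : ∀ r ∈ L, v r ∈ Gam D r)
    (hdiv : ∀ r ∈ L, r ≠ p0 → n ∣ D / r) :
    ZMod.unitsMap hnD (∏ r ∈ S, v r) = if p0 ∈ S then ZMod.unitsMap hnD (v p0) else 1 := by
  rw [map_prod]
  have h1 : ∀ r ∈ S, ZMod.unitsMap hnD (v r) = if r = p0 then ZMod.unitsMap hnD (v p0) else 1 := by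
    intro r hr
    split_ifs with h
    · rw [h]
    · have hrL : r ∈ L := List.mem_toFinset.1 (hS hr)
      exact gam_one D r n hnD (hdiv r hrL h) (v r) (hv r hrL)
  rw [Finset.prod_congr rfl h1, Finset.prod_ite_eq']

theorem RE_cast (D n : ℕ) [NeZero D] (hnD : n ∣ D) (u : (ZMod D)ˣ) :
    ZMod.castHom hnD (ZMod n) (u : ZMod D) = ((ZMod.unitsMap hnD u : (ZMod n)ˣ) : ZMod n) := by
  rw [ZMod.unitsMap_def]
  rfl

/-- reduction of the equation of a bad pair modulo `n` -/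
theorem RE_red (D n p0 q : ℕ) [NeZero D] (hnD : n ∣ D) (hq : n ∣ D / q) (L : List ℕ)
    (v : ℕ → (ZMod D)ˣ) (hv : ∀ r ∈ L, v r ∈ Gam D r) (hdiv : ∀ r ∈ L, r ≠ p0 → n ∣ D / r)
    (b : Bool) (S S' : Finset ℕ) (ξ : (ZMod D)ˣ) (hS : S ⊆ L.toFinset) (hS' : S' ⊆ L.toFinset)
    (hξ : ξ ∈ Gam D q)
    (he : (2 : ZMod D) * ((∏ p ∈ S, v p : (ZMod D)ˣ) : ZMod D) =
        ((su b * ξ * ∏ p ∈ S', v p : (ZMod D)ˣ) : ZMod D)) :
    (2 : ZMod n) * (if p0 ∈ S then ((ZMod.unitsMap hnD (v p0) : (ZMod n)ˣ) : ZMod n) else 1) =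
      (if b then -1 else 1) *
        (if p0 ∈ S' then ((ZMod.unitsMap hnD (v p0) : (ZMod n)ˣ) : ZMod n) else 1) := by
  have h1 := congrArg (ZMod.castHom hnD (ZMod n)) he
  rw [map_mul, map_ofNat, RE_cast, RE_cast, map_mul, map_mul, RE_prod D n p0 hnD L S hS v hv hdiv,
    RE_prod D n p0 hnD L S' hS' v hv hdiv, gam_one D q n hnD hq ξ hξ, mul_one, Units.val_mul] at h1
  have h2 : ((ZMod.unitsMap hnD (su b) : (ZMod n)ˣ) : ZMod n) = if b then -1 else 1 := by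
    unfold su
    cases b
    · simp
    · simp [ZMod.unitsMap_def]
  have h3 : ∀ T : Finset ℕ, (((if p0 ∈ T then ZMod.unitsMap hnD (v p0) else 1 : (ZMod n)ˣ)) :
      ZMod n) = if p0 ∈ T then ((ZMod.unitsMap hnD (v p0) : (ZMod n)ˣ) : ZMod n) else 1 := by
    intro T
    split_ifs
    · rfl
    · rfl
  rw [h2, h3, h3] at h1
  exact h1

theorem RE_gam (D q : ℕ) [NeZero D] (hq : q.Prime) (h11 : 11 ≤ q) (hqD : q ∣ D) :
    7 ≤ Nat.card (Gam D q) := by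
  rw [card_Gam D q hq hqD]
  split_ifs <;> omega

theorem RE_q {D q : ℕ} [NeZero D] {L : List ℕ} {ev : Prop} {f : (ZMod D)ˣ → ℤ}
    (h : RHyp D q L ev f) : q ∣ D := by
  have h1 : q ∈ D.primeFactors := by
    rw [← h.hL]
    simp
  exact Nat.dvd_of_mem_primeFactors h1

theorem RE_mem {D q : ℕ} [NeZero D] {L : List ℕ} {ev : Prop} {f : (ZMod D)ˣ → ℤ}
    (h : RHyp D q L ev f) {p : ℕ} (hp : p ∈ L) : p.Prime ∧ p ∣ D ∧ p ≠ q := by
  have h1 : p ∈ D.primeFactors := by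
    rw [← h.hL]
    simp [hp]
  refine ⟨Nat.prime_of_mem_primeFactors h1, Nat.dvd_of_mem_primeFactors h1, ?_⟩
  rintro rfl
  exact (List.nodup_cons.1 h.nd).1 hp

theorem RE_memL {D q : ℕ} [NeZero D] {L : List ℕ} {ev : Prop} {f : (ZMod D)ˣ → ℤ}
    (h : RHyp D q L ev f) {p : ℕ} (hp : p.Prime) (hpD : p ∣ D) (hne : p ≠ q) : p ∈ L := by
  have h1 : p ∈ D.primeFactors := Nat.mem_primeFactors.2 ⟨hp, hpD, NeZero.ne D⟩
  rw [← h.hL, List.mem_toFinset, List.mem_cons] at h1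
  rcases h1 with h1 | h1
  · exact absurd h1 hne
  · exact h1

theorem RE_dvd_div {D p r : ℕ} [NeZero D] (hp : p.Prime) (hr : r.Prime) (hpD : p ∣ D)
    (hrD : r ∣ D) (hne : r ≠ p) : p ∣ D / r := by
  obtain ⟨k, hk⟩ := hrD
  rw [hk, Nat.mul_div_cancel_left _ hr.pos]
  have h1 : p ∣ r * k := hk ▸ hpD
  rcases (Nat.Prime.dvd_mul hp).1 h1 with h2 | h2
  · exact absurd ((Nat.prime_dvd_prime_iff_eq hp hr).1 h2).symm hne
  · exact h2

/-- the classes of `2` and `6` generate the units modulo `7` -/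
def RE_a7 : (ZMod 7)ˣ := ⟨2, 4, by decide, by decide⟩

def RE_b7 : (ZMod 7)ˣ := ⟨6, 6, by decide, by decide⟩

def RE_g7 : (ZMod 7)ˣ := ⟨3, 5, by decide, by decide⟩

theorem RE_g7_eq : RE_a7 * RE_a7 * RE_b7 = RE_g7 := by
  apply Units.ext
  rfl

theorem RE_top7 : Subgroup.closure ({RE_a7, RE_b7} : Set (ZMod 7)ˣ) = ⊤ := by
  rw [eq_top_iff]
  intro x _
  have h : ∀ x : (ZMod 7)ˣ, ∃ n ∈ Finset.range 7, RE_g7 ^ n = x := by decide
  obtain ⟨n, -, rfl⟩ := h x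
  refine Subgroup.pow_mem _ ?_ n
  rw [← RE_g7_eq]
  have ha : RE_a7 ∈ Subgroup.closure ({RE_a7, RE_b7} : Set (ZMod 7)ˣ) :=
    Subgroup.subset_closure (Set.mem_insert _ _)
  have hb : RE_b7 ∈ Subgroup.closure ({RE_a7, RE_b7} : Set (ZMod 7)ˣ) :=
    Subgroup.subset_closure (Set.mem_insert_of_mem _ rfl)
  exact Subgroup.mul_mem _ (Subgroup.mul_mem _ ha ha) hb

theorem r10 (D q : ℕ) [NeZero D] (L : List ℕ) (ev : Prop) (f : (ZMod D)ˣ → ℤ)
    (h : RHyp D q L ev f) (h11 : 11 ≤ q) (ho : Odd D) (h2 : ¬ q * q ∣ D) (h9 : 9 ∣ D)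
    (h7 : 7 ∣ D) (h49 : ¬ 7 * 7 ∣ D) : MDv (Gam D) L f := by
  have hq := h.hq
  have h3D : 3 ∣ D := (by norm_num : (3 : ℕ) ∣ 9).trans h9
  have h7p : Nat.Prime 7 := by norm_num
  have h3p : Nat.Prime 3 := by norm_num
  have h7L : 7 ∈ L := RE_memL h h7p h7 (by omega)
  have h3L : 3 ∈ L := RE_memL h h3p h3D (by omega)
  have h33 : 3 ∣ D / 3 := by
    obtain ⟨k, hk⟩ := h9
    exact ⟨k, by omega⟩
  refine mdv_of_dl (Gam D) L (List.nodup_cons.1 h.nd).2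
    (fun p => {v | v ∈ Gam D p ∧ ∀ hp : p ∣ D, p = 7 →
      ((ZMod.unitsMap hp v : (ZMod p)ˣ) : ZMod p) = 2 ∨
      ((ZMod.unitsMap hp v : (ZMod p)ˣ) : ZMod p) = 6})
    ?_ f ?_
  · intro p hp
    by_cases hp7 : p = 7
    · subst hp7
      refine (gam_closure D 7 h7p h7 h49 {RE_a7, RE_b7} RE_top7).trans ?_
      apply Subgroup.closure_mono
      rintro v ⟨hv1, hv2⟩
      refine ⟨hv1, fun _ _ => ?_⟩
      rcases hv2 with hv2 | hv2
      · left
        rw [hv2]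
        rfl
      · right
        rw [Set.mem_singleton_iff] at hv2
        rw [hv2]
        rfl
    · intro v hv
      exact Subgroup.subset_closure ⟨hv, fun _ h0 => absurd h0 hp7⟩
  · intro v hv z
    have hv7 := (hv 7 h7L).2 h7 rfl
    have hvG : ∀ p ∈ L, v p ∈ Gam D p := fun p hp => (hv p hp).1
    refine RE_core D q L ev f h (RE_gam D q hq h11 (RE_q h)) v hvG
      (Or.inl (neg_one_not D q L h.hL (Or.inl ⟨3, h3p, le_refl 3, h9⟩))) ?_ z
    intro _ b S S' ξ hS hS' hξ he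
    exfalso
    have e7 := RE_red D 7 7 q h7 (RE_dvd_div h7p hq h7 (RE_q h) (by omega)) L v hvG
      (fun r hr hne => RE_dvd_div h7p (RE_mem h hr).1 h7 (RE_mem h hr).2.1 hne)
      b S S' ξ hS hS' hξ he
    have e3 := RE_red D 3 3 q h3D (RE_dvd_div h3p hq h3D (RE_q h) (by omega)) L v hvG
      (fun r hr hne => RE_dvd_div h3p (RE_mem h hr).1 h3D (RE_mem h hr).2.1 hne)
      b S S' ξ hS hS' hξ he
    rw [gam_one D 3 3 h3D h33 (v 3) (hvG 3 h3L), Units.val_one, ite_self, ite_self] at e3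
    rcases hv7 with hv7 | hv7 <;> rw [hv7] at e7 <;> revert e3 e7 <;>
      cases b <;> by_cases hs : 7 ∈ S <;> by_cases hs' : 7 ∈ S' <;>
        simp only [hs, hs', if_true, if_false] <;> decide

theorem r11 (D q : ℕ) [NeZero D] (L : List ℕ) (ev : Prop) (f : (ZMod D)ˣ → ℤ)
    (h : RHyp D q L ev f) (h11 : 11 ≤ q) (hD : D = 9 * q) : MDv (Gam D) L f := by
  have hq := h.hq
  have h9 : 9 ∣ D := ⟨q, hD⟩
  have h3D : 3 ∣ D := (by norm_num : (3 : ℕ) ∣ 9).trans h9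
  have h3p : Nat.Prime 3 := by norm_num
  have h3L : 3 ∈ L := RE_memL h h3p h3D (by omega)
  have h33 : 3 ∣ D / 3 := by
    obtain ⟨k, hk⟩ := h9
    exact ⟨k, by omega⟩
  have hmem : ∀ p ∈ L, p = 3 := by
    intro p hp
    obtain ⟨h1, h2, h3⟩ := RE_mem h hp
    rw [hD, Nat.Prime.dvd_mul h1] at h2
    rcases h2 with h2 | h2
    · have h4 : p ∣ 3 * 3 := h2
      rw [Nat.Prime.dvd_mul h1] at h4
      rcases h4 with h4 | h4 <;> exact (Nat.prime_dvd_prime_iff_eq h1 h3p).1 h4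
    · exact absurd ((Nat.prime_dvd_prime_iff_eq h1 hq).1 h2) h3
  have hLT : L.toFinset = {3} := by
    ext x
    rw [List.mem_toFinset, Finset.mem_singleton]
    exact ⟨hmem x, fun hx => hx ▸ h3L⟩
  refine mdv_of_dl (Gam D) L (List.nodup_cons.1 h.nd).2 (fun p => Gam D p)
    (fun p _ => by rw [Subgroup.closure_eq]) f ?_
  intro v hv z
  refine RE_core D q L ev f h (RE_gam D q hq h11 (RE_q h)) v hv
    (Or.inl (neg_one_not D q L h.hL (Or.inl ⟨3, h3p, le_refl 3, h9⟩))) ?_ z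
  intro hne b S S' ξ hS hS' hξ he
  have hDq : D / q = 9 := by rw [hD, Nat.mul_div_cancel _ hq.pos]
  have e9 := RE_red D 9 3 q h9 (by rw [hDq]) L v hv
    (fun r hr hne => absurd (hmem r hr) hne) b S S' ξ hS hS' hξ he
  have hu3 := gam_one D 3 3 h3D h33 (v 3) (hv 3 h3L)
  -- the class of `v 3` modulo 9
  have hu9 : ((ZMod.unitsMap h9 (v 3) : (ZMod 9)ˣ) : ZMod 9) = 4 ∨
      ((ZMod.unitsMap h9 (v 3) : (ZMod 9)ˣ) : ZMod 9) = 7 := by
    have h93 : (3 : ℕ) ∣ 9 := by norm_num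
    have e1 : ZMod.unitsMap h93 (ZMod.unitsMap h9 (v 3)) = 1 := by
      rw [← hu3]
      exact DFunLike.congr_fun (ZMod.unitsMap_comp h93 h9) (v 3)
    have e2 : ZMod.unitsMap h9 (v 3) ≠ 1 := by
      intro e
      apply hne 3 h3L
      have h3q : ZMod.unitsMap (Nat.div_dvd_of_dvd h3D) (v 3) = 1 := by
        have := hv 3 h3L
        unfold Gam at this
        simp only [SetLike.mem_coe] at this
        rw [dif_pos h3D] at this
        exact this
      have f1 := congrArg (Units.val) e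
      have f2 := congrArg (Units.val) h3q
      rw [← RE_cast, Units.val_one] at f1 f2
      rw [← ZMod.natCast_zmod_val ((v 3 : (ZMod D)ˣ) : ZMod D), map_natCast] at f1 f2
      have g1 : (((v 3 : (ZMod D)ˣ) : ZMod D).val : ZMod 9) = ((1 : ℕ) : ZMod 9) := by
        rw [f1, Nat.cast_one]
      have g2 : (((v 3 : (ZMod D)ˣ) : ZMod D).val : ZMod (D / 3)) = ((1 : ℕ) : ZMod (D / 3)) := by
        rw [f2, Nat.cast_one]
      rw [ZMod.natCast_eq_natCast_iff] at g1 g2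
      have hD3 : D / 3 = 3 * q := by omega
      rw [hD3] at g2
      have g3 : ((v 3 : (ZMod D)ˣ) : ZMod D).val ≡ 1 [MOD q] := g2.of_mul_left 3
      have hcop : Nat.Coprime 9 q := by
        have : Nat.Coprime (3 * 3) q := by
          have h5 := (Nat.coprime_primes h3p hq).2 (by omega)
          exact Nat.Coprime.mul_left h5 h5
        exact this
      have g4 := (Nat.modEq_and_modEq_iff_modEq_mul hcop).1 ⟨g1, g3⟩
      rw [← hD, ← ZMod.natCast_eq_natCast_iff, ZMod.natCast_zmod_val, Nat.cast_one] at g4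
      exact Units.ext g4
    set u : (ZMod 9)ˣ := ZMod.unitsMap h9 (v 3) with hu
    have k1 : (((u : ZMod 9).val : ℕ) : ZMod 3) = ((1 : ℕ) : ZMod 3) := by
      have f1 := congrArg (Units.val) e1
      rw [← RE_cast, Units.val_one] at f1
      rw [← ZMod.natCast_zmod_val (u : ZMod 9), map_natCast] at f1
      rw [f1, Nat.cast_one]
    rw [ZMod.natCast_eq_natCast_iff] at k1
    have k2 : (u : ZMod 9).val < 9 := ZMod.val_lt _
    have k3 : (u : ZMod 9).val % 3 = 1 := k1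
    have k4 : (u : ZMod 9).val = 1 ∨ (u : ZMod 9).val = 4 ∨ (u : ZMod 9).val = 7 := by omega
    rcases k4 with k4 | k4 | k4
    · exfalso
      apply e2
      apply Units.ext
      rw [← ZMod.natCast_zmod_val (u : ZMod 9), k4]
      rfl
    · left
      rw [← ZMod.natCast_zmod_val (u : ZMod 9), k4]
      rfl
    · right
      rw [← ZMod.natCast_zmod_val (u : ZMod 9), k4]
      rfl
  rw [hLT] at hS hS'
  have hcard : ∀ T : Finset ℕ, T ⊆ {3} → T.card = if 3 ∈ T then 1 else 0 := by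
    intro T hT
    rcases Finset.subset_singleton_iff.1 hT with rfl | rfl <;> simp
  rw [hcard S hS, hcard S' hS']
  rcases hu9 with hu9 | hu9 <;> rw [hu9] at e9 <;> revert e9 <;>
    cases b <;> by_cases hs : 3 ∈ S <;> by_cases hs' : 3 ∈ S' <;>
      simp only [hs, hs', if_true, if_false, sg] <;> decide

end Pool.Agent.helper88.EF
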